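import Mathlib

namespace Pool.Agent.Results.MP_ff84c4_al.MarkovNe

open Function Topology Subgroup

/-- Open sets of the Markov topology: open in every Hausdorff group topology. -/
def MarkovOpen {G : Type} [Group G] (U : Set G) : Prop :=
  ∀ t : TopologicalSpace G, @IsTopologicalGroup G t _ → @T2Space G t → IsOpen[t] U

/-- The centralizer topology. -/
def centTop (G : Type) [Group G] : TopologicalSpace G :=
  .generateFrom {U | ∃ a b : G, U = {x | x * b * x⁻¹ = a * b * a⁻¹}}

/-- Finite double centralizers. -/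
def FinDoubleCent (G : Type) [Group G] : Prop :=
  ∀ F : Set G, F.Finite → Finite (centralizer (centralizer F : Set G))

/-- The vector space. -/
abbrev V : Type := ℕ →₀ ZMod 2

/-- `g` lies in the copy of `GL_n`. -/
def Lev (n : ℕ) (g : V ≃ₗ[ZMod 2] V) : Prop :=
  ∀ i, n ≤ i → g (Finsupp.single i 1) = Finsupp.single i 1 ∧ ∀ v, g v i = v i

/-- `GL_∞(𝔽₂)`. -/
def G : Subgroup (V ≃ₗ[ZMod 2] V) where
  carrier := {g | ∃ n, Lev n g}
  mul_mem' := by
    rintro g h ⟨n, hg⟩ ⟨m, hh⟩
    refine ⟨n + m, fun i hi => ⟨?_, fun v => ?_⟩⟩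
    · rw [LinearEquiv.mul_apply, (hh i (by omega)).1, (hg i (by omega)).1]
    · rw [LinearEquiv.mul_apply, (hg i (by omega)).2, (hh i (by omega)).2]
  one_mem' := ⟨0, fun _ _ => ⟨rfl, fun _ => rfl⟩⟩
  inv_mem' := by
    rintro g ⟨n, hg⟩
    refine ⟨n, fun i hi => ⟨g.symm_apply_eq.2 (hg i hi).1.symm, fun v => ?_⟩⟩
    rw [← (hg i hi).2]; exact congrArg (· i) (g.apply_symm_apply v)

/-- The transvection `v ↦ v + v j • e i` as a linear map. -/
noncomputable def tr0 (i j : ℕ) : V →ₗ[ZMod 2] V :=
  LinearMap.id + (Finsupp.lapply j).smulRight (Finsupp.single i 1)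

lemma tr0_apply (i j : ℕ) (v : V) : tr0 i j v = v + v j • Finsupp.single i 1 := rfl

/-- The transvection as an element of `G`. -/
noncomputable def tr (i j : ℕ) (h : i ≠ j) : G :=
  ⟨LinearEquiv.ofInvolutive (tr0 i j) fun v => by
    simp only [tr0_apply, Finsupp.add_apply, Finsupp.smul_apply, Finsupp.single_eq_of_ne h.symm,
      smul_zero, add_zero, add_assoc, ← add_smul, CharTwo.add_self_eq_zero, zero_smul],
    i + j + 1, fun k hk => ⟨by
      show tr0 i j _ = _
      rw [tr0_apply, Finsupp.single_eq_of_ne (by omega), zero_smul, add_zero], fun v => by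
      show tr0 i j v k = _
      rw [tr0_apply, Finsupp.add_apply, Finsupp.smul_apply, Finsupp.single_eq_of_ne (by omega),
        smul_zero, add_zero]⟩⟩

lemma comm_iff {i j : ℕ} (h : i ≠ j) (g : G) : g * tr i j h = tr i j h * g ↔
    ∀ v, v j • g.1 (Finsupp.single i 1) = g.1 v j • Finsupp.single i 1 := by
  rw [Subtype.ext_iff, LinearEquiv.ext_iff]
  refine forall_congr' fun v => ?_
  show g.1 (tr0 i j v) = tr0 i j (g.1 v) ↔ _
  rw [tr0_apply, tr0_apply, map_add, map_smul, add_right_inj]

lemma lev_of_comm {n : ℕ} {g : G}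
    (h : ∀ i j (hij : i ≠ j), n ≤ i → n ≤ j → g * tr i j hij = tr i j hij * g) : Lev n g.1 := by
  have key : ∀ i, n ≤ i → g.1 (Finsupp.single i 1) = Finsupp.single i 1 := fun i hi => by
    have h1 := (comm_iff _ g).1 (h i (i + 1) (by omega) hi (by omega)) (Finsupp.single (i + 1) 1)
    rw [Finsupp.single_eq_same, one_smul] at h1
    generalize g.1 (Finsupp.single (i + 1) 1) (i + 1) = c at h1
    rcases (by decide : ∀ c : ZMod 2, c = 0 ∨ c = 1) c with rfl | rfl
    · simp at h1
    · rwa [one_smul] at h1
  refine fun i hi => ⟨key i hi, fun v => ?_⟩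
  have h1 := (comm_iff _ g).1 (h (i + 1) i (by omega) (by omega) hi) v
  rw [key _ (by omega)] at h1
  simpa using (congrArg (· (i + 1)) h1).symm

lemma finite_lev (n : ℕ) : {g : G | Lev n g.1}.Finite := by
  refine Set.Finite.of_finite_image (f := fun g (i j : Fin n) => g.1 (Finsupp.single i 1) j)
    (Set.toFinite _) fun g hg h hh e => Subtype.ext (LinearEquiv.toLinearMap_injective ?_)
  ext i j
  show g.1 (Finsupp.single i 1) j = h.1 (Finsupp.single i 1) j
  by_cases hi : n ≤ i
  · rw [(hg i hi).1, (hh i hi).1]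
  by_cases hj : n ≤ j
  · rw [(hg j hj).2, (hh j hj).2]
  exact congrFun (congrFun e ⟨i, by omega⟩) ⟨j, by omega⟩

lemma lev_mono {m n : ℕ} (h : m ≤ n) {g} (hg : Lev m g) : Lev n g := fun i hi => hg i (h.trans hi)

/-- `V` with the discrete topology. -/
def W : Type := V
instance : TopologicalSpace W := ⊥
instance : DiscreteTopology W := ⟨rfl⟩

/-- Evaluation. -/
noncomputable def ev (g : G) (v : W) : W := g.1 v

theorem result : ∃ (G : Type) (_ : Group G), Countable G ∧ center G = ⊥ ∧ FinDoubleCent G ∧
    ¬ ∀ U : Set G, MarkovOpen U ↔ IsOpen[centTop G] U := by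
  refine ⟨G, inferInstance, ?_, ?_, fun F hF => ?_, fun h => ?_⟩
  · rw [← Set.countable_univ_iff]
    refine (Set.countable_iUnion fun n => (finite_lev n).countable).mono fun g _ => ?_
    exact Set.mem_iUnion.2 g.2
  · refine eq_bot_iff.2 fun g hg => Subtype.ext (LinearEquiv.ext fun v => Finsupp.ext fun i => ?_)
    exact (lev_of_comm (n := 0) (fun i j h _ _ => (mem_center_iff.1 hg _).symm) i i.zero_le).2 v
  · choose n hn using fun g : G => g.2
    obtain ⟨N, hN⟩ := (hF.image n).bddAbove
    refine (finite_lev N).subset fun g hg => lev_of_comm fun i j hij hi hj => (hg _ ?_).symm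
    intro f hf
    have := lev_mono (hN ⟨f, hf, rfl⟩) (hn f)
    exact (comm_iff _ f).2 fun v => by rw [(this i hi).1, (this j hj).2]
  · let _ : TopologicalSpace G := .induced ev inferInstance
    have hi : IsInducing ev := ⟨rfl⟩
    have ce : ∀ v, Continuous fun g => ev g v := fun v => (continuous_apply v).comp hi.continuous
    have hnh : ∀ (g : G) (v : W), ∀ᶠ x in 𝓝 g, ev x v = ev g v := fun g v =>
      (ce v).continuousAt.eventually (p := (· = ev g v)) (by simp)
    have hG : IsTopologicalGroup G :=
      { continuous_mul := hi.continuous_iff.2 <| continuous_pi fun v =>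
          continuous_iff_continuousAt.2 fun p => continuousAt_const.congr <| by
            filter_upwards [continuous_snd.continuousAt.eventually (hnh p.2 v),
              continuous_fst.continuousAt.eventually (hnh p.1 (ev p.2 v))] with q h1 h2
            show ev p.1 (ev p.2 v) = ev q.1 (ev q.2 v)
            rw [h1, h2]
        continuous_inv := hi.continuous_iff.2 <| continuous_pi fun v =>
          continuous_iff_continuousAt.2 fun p => continuousAt_const.congr <| by
            filter_upwards [hnh p (ev p⁻¹ v)] with q h1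
            exact q.1.eq_symm_apply.2 (h1.trans (p.1.apply_symm_apply v)) }
    have hT : T2Space G := IsEmbedding.t2Space
      ⟨hi, fun g g' e => Subtype.ext (LinearEquiv.ext fun v => congrFun e v)⟩
    let b := tr 0 1 (by omega)
    have hU := (h _).2 (TopologicalSpace.isOpen_generateFrom_of_mem ⟨1, b, rfl⟩) _ hG hT
    have h1 : Filter.Tendsto (fun n => tr 1 (n + 2) (by omega)) Filter.atTop (𝓝 1) := by
      refine hi.tendsto_nhds_iff.2 (tendsto_pi_nhds.2 fun v => tendsto_const_nhds.congr' ?_)
      obtain ⟨N, hN⟩ := (show V from v).support.bddAbove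
      filter_upwards [Filter.eventually_ge_atTop N] with n hn
      show (show V from v) = tr0 1 (n + 2) v
      rw [tr0_apply, Finsupp.notMem_support_iff.1 fun h => by have := hN h; omega, zero_smul,
        add_zero]
    obtain ⟨n, hn⟩ := (h1.eventually (hU.mem_nhds (by simp))).exists
    simp only [one_mul, inv_one, mul_one, mul_inv_eq_iff_eq_mul] at hn
    have h2 := (comm_iff _ _).1 hn (Finsupp.single (n + 2) 1)
    change _ = tr0 1 (n + 2) _ 1 • _ at h2
    simpa [tr0_apply] using congrArg (· 0) h2

end Pool.Agent.Results.MP_ff84c4_al.MarkovNe
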